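import Mathlib

/-! Squad GT: a lower bound of the expected order for the number of primes in a residue class in
infinitely many dyadic intervals, from the Dirichlet series of Mathlib. -/

namespace Pool.Agent.GT.H21

open Finset ArithmeticFunction ArithmeticFunction.vonMangoldt

theorem geo_bound (y : ℝ) (hy0 : 0 < y) (hy1 : y ≤ 1) (J : ℕ) :
    ∑ j ∈ range J, ((1 / 2 : ℝ) ^ y) ^ j ≤ 2 / y := by
  have h1 : (1 / 2 : ℝ) ^ y ≤ 1 - y / 2 := by
    have := _root_.rpow_one_add_le_one_add_mul_self (s := -(1 / 2 : ℝ)) (by norm_num) hy0.le hy1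
    have e : (1 : ℝ) + -(1 / 2) = 1 / 2 := by norm_num
    rw [e] at this
    linarith
  have h0 : (0 : ℝ) < (1 / 2 : ℝ) ^ y := by positivity
  have h2 : (1 / 2 : ℝ) ^ y < 1 := by linarith
  have h3 : 0 < 1 - (1 / 2 : ℝ) ^ y := by linarith
  have h4 : ∑ j ∈ range J, ((1 / 2 : ℝ) ^ y) ^ j ≤ 1 / (1 - (1 / 2 : ℝ) ^ y) := by
    rw [le_div_iff₀ h3]
    have := geom_sum_mul_neg ((1 / 2 : ℝ) ^ y) J
    rw [this]
    have : (0 : ℝ) ≤ ((1 / 2 : ℝ) ^ y) ^ J := by positivity
    linarith
  refine h4.trans ?_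
  rw [div_le_div_iff₀ h3 hy0]
  linarith

theorem rc_block {M b : ℕ} [NeZero M] (X : ℕ) (hX : 2 ≤ X) (x : ℝ) (hx : 1 < x) (c : ℝ)
    (hc : (((Ioc X (2 * X)).filter fun p => p.Prime ∧ p % M = b % M).card : ℝ) ≤
      c * X / Real.log X) (_hc0 : 0 ≤ c) :
    ∑ n ∈ Ioc X (2 * X), (if n.Prime then residueClass (b : ZMod M) n else 0) / (n : ℝ) ^ x ≤
      2 * c * (X : ℝ) ^ (1 - x) := by
  have hX0 : (0 : ℝ) < X := by
    have : 0 < X := by omega
    exact_mod_cast this
  have hlog : 0 < Real.log X := Real.log_pos (by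
    have : (2 : ℝ) ≤ X := by exact_mod_cast hX
    linarith)
  have h1 : ∀ n ∈ Ioc X (2 * X), (if n.Prime then residueClass (b : ZMod M) n else 0) /
      (n : ℝ) ^ x ≤ if n.Prime ∧ n % M = b % M then 2 * Real.log X * (X : ℝ) ^ (-x) else 0 := by
    intro n hn
    rw [mem_Ioc] at hn
    by_cases hp : n.Prime
    · rw [if_pos hp]
      by_cases hm : n % M = b % M
      · rw [if_pos ⟨hp, hm⟩]
        have e1 : residueClass (b : ZMod M) n ≤ 2 * Real.log X := by
          refine (residueClass_le _ n).trans ?_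
          rw [vonMangoldt_apply_prime hp]
          have e2 : Real.log n ≤ Real.log (X ^ 2) := by
            apply Real.log_le_log
            · exact_mod_cast hp.pos
            · have : n ≤ X ^ 2 := by nlinarith
              exact_mod_cast this
          rw [Real.log_pow] at e2
          exact_mod_cast e2
        have e3 : (X : ℝ) ^ x ≤ (n : ℝ) ^ x :=
          Real.rpow_le_rpow hX0.le (by exact_mod_cast hn.1.le) (by linarith)
        have e4 : (0 : ℝ) < (X : ℝ) ^ x := Real.rpow_pos_of_pos hX0 _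
        rw [Real.rpow_neg hX0.le, ← div_eq_mul_inv]
        exact div_le_div₀ (by positivity) e1 e4 e3
      · rw [if_neg (fun h => hm h.2)]
        have : residueClass (b : ZMod M) n = 0 := by
          refine Set.indicator_of_notMem ?_ _
          intro h
          exact hm ((ZMod.natCast_eq_natCast_iff' n b M).mp h)
        rw [this, zero_div]
    · rw [if_neg hp, if_neg (fun h => hp h.1), zero_div]
  refine (sum_le_sum h1).trans ?_
  rw [← sum_filter, sum_const, nsmul_eq_mul]
  have h2 : (0 : ℝ) ≤ 2 * Real.log X * (X : ℝ) ^ (-x) := by positivity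
  refine (mul_le_mul_of_nonneg_right hc h2).trans (le_of_eq ?_)
  rw [show (1 : ℝ) - x = 1 + -x by ring, Real.rpow_add hX0, Real.rpow_one]
  field_simp

theorem pri_ : ∀ M b : ℕ, 0 < M → b.Coprime M → ∃ c : ℝ, 0 < c ∧ ∀ X0 : ℕ, ∃ X : ℕ,
    X0 ≤ X ∧ 2 ≤ X ∧ c * X / Real.log X ≤
      (((Ioc X (2 * X)).filter fun p => p.Prime ∧ p % M = b % M).card : ℝ) := by
  intro M b hM hb
  have : NeZero M := ⟨hM.ne'⟩
  have ha : IsUnit (b : ZMod M) := (ZMod.isUnit_iff_coprime b M).mpr hb
  obtain ⟨C, hC⟩ := LSeries_residueClass_lower_bound ha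
  set φ : ℝ := ((M.totient : ℝ)⁻¹) with hφd
  have hφ : 0 < φ := by
    rw [hφd]
    exact inv_pos.mpr (by exact_mod_cast Nat.totient_pos.mpr hM)
  refine ⟨φ / 8, by positivity, fun X0 => ?_⟩
  by_contra hcon
  push Not at hcon
  set Y : ℕ := max X0 2 with hY
  have hY2 : 2 ≤ Y := le_max_right _ _
  have hYX : X0 ≤ Y := le_max_left _ _
  have hnp := summable_residueClass_non_primes_div (b : ZMod M)
  set K1 : ℝ := ∑' n : ℕ, (if n.Prime then 0 else residueClass (b : ZMod M) n) / n with hK1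
  set K2 : ℝ := ∑ n ∈ range (Y + 1), residueClass (b : ZMod M) n with hK2
  have hup : ∀ x : ℝ, x ∈ Set.Ioc 1 2 →
      ∑' n : ℕ, residueClass (b : ZMod M) n / (n : ℝ) ^ x ≤ K1 + K2 + (φ / 2) / (x - 1) := by
    intro x hx
    have hx1 : 1 < x := hx.1
    refine Real.tsum_le_of_sum_range_le
      (fun n => div_nonneg (residueClass_nonneg _ n) (by positivity)) (fun N => ?_)
    -- choose `J`
    obtain ⟨J, hJ⟩ : ∃ J : ℕ, N ≤ 2 ^ J * Y + 1 := by
      refine ⟨N, ?_⟩
      have : N ≤ 2 ^ N := Nat.lt_two_pow_self.le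
      nlinarith
    have h1 : ∑ n ∈ range N, residueClass (b : ZMod M) n / (n : ℝ) ^ x ≤
        ∑ n ∈ range (2 ^ J * Y + 1), residueClass (b : ZMod M) n / (n : ℝ) ^ x := by
      refine sum_le_sum_of_subset_of_nonneg (range_subset_range.mpr hJ) (fun n _ _ => ?_)
      exact div_nonneg (residueClass_nonneg _ n) (by positivity)
    have hle : Y ≤ 2 ^ J * Y := Nat.le_mul_of_pos_left _ (by positivity)
    have h2 : ∑ n ∈ range (2 ^ J * Y + 1), residueClass (b : ZMod M) n / (n : ℝ) ^ x =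
        ∑ n ∈ range (Y + 1), residueClass (b : ZMod M) n / (n : ℝ) ^ x +
        ∑ n ∈ Ioc Y (2 ^ J * Y), residueClass (b : ZMod M) n / (n : ℝ) ^ x := by
      rw [range_eq_Ico, range_eq_Ico, ← sum_Ico_consecutive _ (Nat.zero_le _)
        (Nat.succ_le_succ hle)]
      congr 1
      refine sum_congr ?_ (fun _ _ => rfl)
      ext n
      simp only [mem_Ico, mem_Ioc]
      omega
    have h3 : ∑ n ∈ range (Y + 1), residueClass (b : ZMod M) n / (n : ℝ) ^ x ≤ K2 := by
      refine sum_le_sum (fun n _ => ?_)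
      rcases Nat.eq_zero_or_pos n with h0 | h0
      · subst h0; simp
      · refine div_le_self (residueClass_nonneg _ n) ?_
        exact Real.one_le_rpow (by exact_mod_cast h0) (by linarith)
    have h4 : ∑ n ∈ Ioc Y (2 ^ J * Y), residueClass (b : ZMod M) n / (n : ℝ) ^ x ≤
        ∑ n ∈ Ioc Y (2 ^ J * Y), (if n.Prime then 0 else residueClass (b : ZMod M) n) / (n : ℝ) +
        ∑ n ∈ Ioc Y (2 ^ J * Y), (if n.Prime then residueClass (b : ZMod M) n else 0) /
          (n : ℝ) ^ x := by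
      rw [← sum_add_distrib]
      refine sum_le_sum (fun n hn => ?_)
      rw [mem_Ioc] at hn
      have hn1 : (1 : ℝ) ≤ n := by
        have : 1 ≤ n := by omega
        exact_mod_cast this
      by_cases hp : n.Prime
      · simp [hp]
      · rw [if_neg hp, if_neg hp, zero_div, add_zero]
        refine div_le_div_of_nonneg_left (residueClass_nonneg _ n) (by linarith) ?_
        calc (n : ℝ) = (n : ℝ) ^ (1 : ℝ) := (Real.rpow_one _).symm
          _ ≤ (n : ℝ) ^ x := Real.rpow_le_rpow_of_exponent_le hn1 hx1.le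
    have h5 : ∑ n ∈ Ioc Y (2 ^ J * Y), (if n.Prime then 0 else residueClass (b : ZMod M) n) /
        (n : ℝ) ≤ K1 := by
      refine hnp.sum_le_tsum _ (fun n _ => ?_)
      by_cases hp : n.Prime
      · simp [hp]
      · rw [if_neg hp]
        exact div_nonneg (residueClass_nonneg _ n) (Nat.cast_nonneg _)
    have h6 : ∀ J : ℕ, ∑ n ∈ Ioc Y (2 ^ J * Y),
        (if n.Prime then residueClass (b : ZMod M) n else 0) / (n : ℝ) ^ x ≤
        ∑ j ∈ range J, φ / 4 * ((1 / 2 : ℝ) ^ (x - 1)) ^ j := by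
      intro J
      induction J with
      | zero => simp
      | succ J ih =>
        have e1 : Y ≤ 2 ^ J * Y := Nat.le_mul_of_pos_left _ (by positivity)
        have e2 : 2 ^ J * Y ≤ 2 ^ (J + 1) * Y := by
          rw [pow_succ]; nlinarith [Nat.zero_le (2 ^ J * Y)]
        have e3 : 2 ^ (J + 1) * Y = 2 * (2 ^ J * Y) := by rw [pow_succ]; ring
        have e4 : 2 ≤ 2 ^ J * Y := le_trans hY2 e1
        rw [← sum_Ioc_consecutive _ e1 e2, sum_range_succ]
        refine add_le_add ih ?_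
        rw [e3]
        have e5 := hcon (2 ^ J * Y) (le_trans hYX e1) e4
        refine (rc_block (2 ^ J * Y) e4 x hx1 (φ / 8) e5.le (by positivity)).trans ?_
        have e6 : (2 : ℝ) * (φ / 8) = φ / 4 := by ring
        rw [e6]
        refine mul_le_mul_of_nonneg_left ?_ (by positivity)
        have hYr : (1 : ℝ) ≤ Y := by
          have : 1 ≤ Y := by omega
          exact_mod_cast this
        have e7 : (((2 ^ J * Y : ℕ) : ℝ)) ^ (1 - x) = ((2 : ℝ) ^ J) ^ (1 - x) * (Y : ℝ) ^ (1 - x) := by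
          push_cast
          rw [Real.mul_rpow (by positivity) (by positivity)]
        have e8 : (Y : ℝ) ^ (1 - x) ≤ 1 :=
          Real.rpow_le_one_of_one_le_of_nonpos hYr (by linarith)
        have e9 : ((2 : ℝ) ^ J) ^ (1 - x) = ((1 / 2 : ℝ) ^ (x - 1)) ^ J := by
          rw [← Real.rpow_natCast, ← Real.rpow_natCast, ← Real.rpow_mul (by norm_num),
            ← Real.rpow_mul (by norm_num), one_div, Real.inv_rpow (by norm_num),
            ← Real.rpow_neg (by norm_num)]
          congr 1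
          ring
        rw [e7, e9]
        have e10 : (0 : ℝ) ≤ ((1 / 2 : ℝ) ^ (x - 1)) ^ J := by positivity
        nlinarith
    have h7 := h6 J
    rw [← mul_sum] at h7
    have h8 := geo_bound (x - 1) (by linarith) (by linarith [hx.2]) J
    have h9 : φ / 4 * ∑ j ∈ range J, ((1 / 2 : ℝ) ^ (x - 1)) ^ j ≤ (φ / 2) / (x - 1) := by
      calc φ / 4 * ∑ j ∈ range J, ((1 / 2 : ℝ) ^ (x - 1)) ^ j ≤ φ / 4 * (2 / (x - 1)) :=
            mul_le_mul_of_nonneg_left h8 (by positivity)
        _ = (φ / 2) / (x - 1) := by ring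
    linarith
  -- contradiction as `x → 1`
  set A : ℝ := |C| + |K1| + |K2| + 1 with hA
  have hA0 : 0 < A := by positivity
  have hδ : 0 < min 1 (φ / 4 / A) := lt_min one_pos (by positivity)
  set δ : ℝ := min 1 (φ / 4 / A) with hδd
  have hx : (1 + δ) ∈ Set.Ioc (1 : ℝ) 2 := ⟨by linarith, by
    have : δ ≤ 1 := min_le_left _ _
    linarith⟩
  have h1 := hC hx
  have h2 := hup (1 + δ) hx
  have h3 : φ / (1 + δ - 1) - C ≤ K1 + K2 + (φ / 2) / (1 + δ - 1) := h1.trans h2
  have h4 : (1 : ℝ) + δ - 1 = δ := by ring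
  rw [h4] at h3
  have h5 : φ / δ = φ / 2 / δ + φ / 2 / δ := by ring
  have h6 : φ / 2 / δ ≤ C + K1 + K2 := by linarith
  have h7 : C + K1 + K2 < A := by
    have := le_abs_self C
    have := le_abs_self K1
    have := le_abs_self K2
    linarith
  have h8 : δ ≤ φ / 4 / A := min_le_right _ _
  have h9 : 2 * A ≤ φ / 2 / δ := by
    rw [le_div_iff₀ hδ]
    rw [le_div_iff₀ hA0] at h8
    nlinarith
  linarith

end Pool.Agent.GT.H21
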